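import Pool.Agent.helper64.OT.SpecH
import Pool.Agent.helper81.PJ.All

/-!
# Row SPX of project OG
-/

set_option autoImplicit false

namespace Pool.Agent.OG

open Finset Pool.Agent.OT

theorem SPX_big (t C : ℝ) (ht : 0 < t) : ∃ p₁ : ℕ, ∀ p : ℕ, p₁ < p → C ≤ (p : ℝ) ^ t := by
  have h1 : Filter.Tendsto (fun p : ℕ => (p : ℝ) ^ t) Filter.atTop Filter.atTop :=
    (tendsto_rpow_atTop ht).comp tendsto_natCast_atTop_atTop
  obtain ⟨p₁, hp₁⟩ := Filter.eventually_atTop.1 (h1.eventually_ge_atTop C)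
  exact ⟨p₁, fun p hp => hp₁ p hp.le⟩

theorem SPX : SPX_stmt := by
  intro ε hε
  obtain ⟨ε₁, h1, h2, h3⟩ : ∃ ε₁ : ℝ, 0 < ε₁ ∧ ε₁ ≤ ε ∧ ε₁ ≤ 1 / 20 :=
    ⟨min ε (1 / 20), lt_min hε (by norm_num), min_le_left _ _, min_le_right _ _⟩
  obtain ⟨δ, hδ, p₀, hF⟩ := Pool.Agent.PJ.p_FING 3 3 (by norm_num) (by norm_num) ε₁ h1
  obtain ⟨p₁, hp₁⟩ := SPX_big ε₁ 64 h1
  refine ⟨δ, max p₀ p₁, hδ, ?_⟩
  intro p hp hpp χ X Y β hχ hβ hX hXc hYc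
  have q0 : p₀ < p := lt_of_le_of_lt (le_max_left _ _) hpp
  have q1 : 64 ≤ (p : ℝ) ^ ε₁ := hp₁ p (lt_of_le_of_lt (le_max_right _ _) hpp)
  have hP1 : (1 : ℝ) ≤ (p : ℝ) := by exact_mod_cast hp.out.one_lt.le
  have hP0 : (0 : ℝ) < (p : ℝ) := by linarith
  set P : ℝ := (p : ℝ) with hP
  have hadd : ∀ a b : ℝ, P ^ a * P ^ b = P ^ (a + b) := fun a b => (Real.rpow_add hP0 a b).symm
  have hpow : ∀ (a : ℝ) (n : ℕ), (P ^ a) ^ n = P ^ (a * n) := fun a n => by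
    rw [Real.rpow_mul hP0.le, Real.rpow_natCast]
  have hmono : ∀ a b : ℝ, a ≤ b → P ^ a ≤ P ^ b := fun a b h => Real.rpow_le_rpow_of_exponent_le hP1 h
  have hpos : ∀ a : ℝ, 0 < P ^ a := fun a => Real.rpow_pos_of_pos hP0 a
  set N : ℕ := Nat.sqrt p + 1 with hN
  have hs2 : (P ^ (1 / 2 : ℝ)) ^ 2 = P := by
    rw [hpow]
    norm_num
  have hNlo : P ^ (1 / 2 : ℝ) ≤ (N : ℝ) := by
    have h4 : p < (Nat.sqrt p + 1) * (Nat.sqrt p + 1) := Nat.lt_succ_sqrt p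
    have h5 : (P ^ (1 / 2 : ℝ)) ^ 2 ≤ (N : ℝ) ^ 2 := by
      rw [hs2, hP, hN, sq]
      exact_mod_cast h4.le
    exact le_of_sq_le_sq h5 (Nat.cast_nonneg _)
  have hs1 : 1 ≤ P ^ (1 / 2 : ℝ) := Real.one_le_rpow hP1 (by norm_num)
  have hNhi : (N : ℝ) ≤ 2 * P ^ (1 / 2 : ℝ) := by
    have h4 : Nat.sqrt p * Nat.sqrt p ≤ p := Nat.sqrt_le p
    have h5 : ((Nat.sqrt p : ℕ) : ℝ) ^ 2 ≤ (P ^ (1 / 2 : ℝ)) ^ 2 := by
      rw [hs2, hP, sq]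
      exact_mod_cast h4
    have h6 : ((Nat.sqrt p : ℕ) : ℝ) ≤ P ^ (1 / 2 : ℝ) := le_of_sq_le_sq h5 (hpos _).le
    rw [hN]
    push_cast
    linarith
  have hN0 : (0 : ℝ) ≤ (N : ℝ) := Nat.cast_nonneg _
  set V : ℝ := P ^ (1 / 6 : ℝ) with hV
  have hx : P ^ (19 / 42 + ε₁) ≤ (X.card : ℝ) := (hmono _ _ (by linarith)).trans hXc
  have hy : P ^ (19 / 42 + ε₁) ≤ (Y.card : ℝ) := (hmono _ _ (by linarith)).trans hYc
  have hL0 : 0 < P ^ (19 / 42 + ε₁) := hpos _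
  set B : Finset (ZMod p) := Y.image (fun y => -y) with hB
  have hinj : Function.Injective (fun y : ZMod p => -y) := neg_injective
  have hBc : B.card = Y.card := card_image_of_injective _ hinj
  have hN2 : (N : ℝ) ^ 2 ≤ 4 * P := by
    have := pow_le_pow_left₀ hN0 hNhi 2
    rw [mul_pow, hs2] at this
    linarith
  have hN5 : (N : ℝ) ^ 5 ≤ 32 * P ^ (5 / 2 : ℝ) := by
    have := pow_le_pow_left₀ hN0 hNhi 5
    rw [mul_pow, hpow] at this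
    norm_num at this ⊢
    linarith
  have hN6 : (N : ℝ) ^ 6 ≤ 64 * P ^ (3 : ℝ) := by
    have := pow_le_pow_left₀ hN0 hNhi 6
    rw [mul_pow, hpow] at this
    norm_num at this ⊢
    linarith
  have hF' := hF p q0 X B 1 0 0 1 N V (by simp) (by
      intro z hz
      refine ⟨z.val, ?_, by simp, by simp⟩
      have h7 : z.val ≤ Nat.sqrt p := Nat.le_sqrt'.2 (hX z hz)
      omega) (Real.one_le_rpow hP1 (by norm_num)) ((hmono _ _ (by norm_num)).trans hNlo) (by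
      rw [hV, hpow]
      norm_num
      exact le_of_eq hP) ((hmono _ _ (by norm_num; linarith)).trans hNlo) (by
      refine hNhi.trans ?_
      have h8 : P ^ (1 - ε₁) = P ^ (1 / 2 : ℝ) * P ^ (1 / 2 - ε₁) := by
        rw [hadd]
        congr 1
        ring
      have h9 : 64 ≤ P ^ (1 / 2 - ε₁) := q1.trans (hmono _ _ (by linarith))
      rw [h8]
      nlinarith [hpos (1 / 2 : ℝ)]) ?_ ?_ ?_ ?_ χ hχ (fun w => β (-w)) (fun w => hβ _)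
  · have h10 : ∑ z ∈ X, ‖∑ w ∈ B, β (-w) * χ (z + w)‖ = ∑ x ∈ X, ‖∑ y ∈ Y, β y * χ (x - y)‖ := by
      refine Finset.sum_congr rfl fun x _ => ?_
      rw [hB, Finset.sum_image (fun a _ b _ h => hinj h)]
      congr 1
      refine Finset.sum_congr rfl fun y _ => ?_
      rw [neg_neg, sub_eq_add_neg]
    rw [h10, hBc] at hF'
    exact hF'
  · -- c1
    have h11 : P ^ (19 / 42 + ε₁) ^ 2 ≤ P ^ (19 / 42 + ε₁) ^ 2 := le_rfl
    have h12 : (P ^ (19 / 42 + ε₁)) ^ 2 ≤ (X.card : ℝ) ^ 2 := pow_le_pow_left₀ hL0.le hx 2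
    calc (N : ℝ) ^ 2 * P ^ ε₁ ≤ (4 * P) * P ^ ε₁ := mul_le_mul_of_nonneg_right hN2 (hpos _).le
      _ ≤ (P ^ ε₁ * P) * P ^ ε₁ := by
          refine mul_le_mul_of_nonneg_right (mul_le_mul_of_nonneg_right ?_ hP0.le) (hpos _).le
          linarith
      _ = P ^ (1 + 2 * ε₁) := by
          have : P = P ^ (1 : ℝ) := (Real.rpow_one P).symm
          nth_rewrite 2 [this]
          rw [hadd, hadd]
          congr 1
          ring
      _ ≤ P ^ (1 / 6 + (19 / 42 + ε₁) * (2 : ℕ)) := hmono _ _ (by push_cast; linarith)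
      _ = V * (P ^ (19 / 42 + ε₁)) ^ 2 := by rw [hV, hpow, hadd]
      _ ≤ V * (X.card : ℝ) ^ 2 := mul_le_mul_of_nonneg_left h12 (hpos _).le
  · -- c2
    rw [hBc]
    have h12 : (P ^ (19 / 42 + ε₁)) ^ 6 ≤ (X.card : ℝ) ^ 6 := pow_le_pow_left₀ hL0.le hx 6
    calc (N : ℝ) ^ (2 * 3 - 1) * P ^ (1 + ε₁) = (N : ℝ) ^ 5 * P ^ (1 + ε₁) := by norm_num
      _ ≤ (32 * P ^ (5 / 2 : ℝ)) * P ^ (1 + ε₁) := mul_le_mul_of_nonneg_right hN5 (hpos _).le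
      _ ≤ (P ^ ε₁ * P ^ (5 / 2 : ℝ)) * P ^ (1 + ε₁) := by
          refine mul_le_mul_of_nonneg_right (mul_le_mul_of_nonneg_right ?_ (hpos _).le) (hpos _).le
          linarith
      _ = P ^ (7 / 2 + 2 * ε₁) := by
          rw [hadd, hadd]
          congr 1
          ring
      _ ≤ P ^ (1 / 6 * (2 : ℕ) + ((19 / 42 + ε₁) * (6 : ℕ) + (19 / 42 + ε₁))) :=
          hmono _ _ (by push_cast; linarith)
      _ = V ^ (3 - 1) * ((P ^ (19 / 42 + ε₁)) ^ 6 * P ^ (19 / 42 + ε₁)) := by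
          rw [hV, hpow, hpow, hadd, hadd]
      _ ≤ V ^ (3 - 1) * ((X.card : ℝ) ^ (2 * 3) * (Y.card : ℝ)) := by
          refine mul_le_mul_of_nonneg_left ?_ (by positivity)
          exact mul_le_mul h12 hy hL0.le (by positivity)
  · -- c4
    rw [hBc]
    have h12 : (P ^ (19 / 42 + ε₁)) ^ 6 ≤ (X.card : ℝ) ^ 6 := pow_le_pow_left₀ hL0.le hx 6
    calc (N : ℝ) ^ (2 * 3) * P ^ ε₁ = (N : ℝ) ^ 6 * P ^ ε₁ := by norm_num
      _ ≤ (64 * P ^ (3 : ℝ)) * P ^ ε₁ := mul_le_mul_of_nonneg_right hN6 (hpos _).le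
      _ ≤ (P ^ ε₁ * P ^ (3 : ℝ)) * P ^ ε₁ := by
          refine mul_le_mul_of_nonneg_right (mul_le_mul_of_nonneg_right ?_ (hpos _).le) (hpos _).le
          linarith
      _ = P ^ (3 + 2 * ε₁) := by
          rw [hadd, hadd]
          congr 1
          ring
      _ ≤ P ^ ((19 / 42 + ε₁) * (6 : ℕ) + (19 / 42 + ε₁)) := hmono _ _ (by push_cast; linarith)
      _ = (P ^ (19 / 42 + ε₁)) ^ 6 * P ^ (19 / 42 + ε₁) := by rw [hpow, hadd]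
      _ ≤ (X.card : ℝ) ^ (2 * 3) * (Y.card : ℝ) := mul_le_mul h12 hy hL0.le (by positivity)
  · -- c5
    rw [hBc]
    have h12 : (P ^ (19 / 42 + ε₁)) ^ 7 ≤ (X.card : ℝ) ^ 7 := pow_le_pow_left₀ hL0.le hx 7
    have h13 : (P ^ (19 / 42 + ε₁)) ^ 2 ≤ (Y.card : ℝ) ^ 2 := pow_le_pow_left₀ hL0.le hy 2
    calc V * (N : ℝ) ^ (2 * 3 - 1) * P ^ (1 + 1 / ((3 : ℕ) : ℝ) + ε₁)
        = (N : ℝ) ^ 5 * (V * P ^ (1 + 1 / ((3 : ℕ) : ℝ) + ε₁)) := by norm_num; ring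
      _ ≤ (32 * P ^ (5 / 2 : ℝ)) * (V * P ^ (1 + 1 / ((3 : ℕ) : ℝ) + ε₁)) :=
          mul_le_mul_of_nonneg_right hN5 (mul_pos (hpos _) (hpos _)).le
      _ ≤ (P ^ ε₁ * P ^ (5 / 2 : ℝ)) * (V * P ^ (1 + 1 / ((3 : ℕ) : ℝ) + ε₁)) := by
          refine mul_le_mul_of_nonneg_right (mul_le_mul_of_nonneg_right ?_ (hpos _).le)
            (mul_pos (hpos _) (hpos _)).le
          linarith
      _ = P ^ (4 + 2 * ε₁) := by
          rw [hV, hadd, hadd, hadd]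
          congr 1
          push_cast
          ring
      _ ≤ P ^ ((19 / 42 + ε₁) * (7 : ℕ) + (19 / 42 + ε₁) * (2 : ℕ)) := hmono _ _ (by push_cast; linarith)
      _ = (P ^ (19 / 42 + ε₁)) ^ 7 * (P ^ (19 / 42 + ε₁)) ^ 2 := by rw [hpow, hpow, hadd]
      _ ≤ (X.card : ℝ) ^ (2 * 3 + 1) * (Y.card : ℝ) ^ 2 :=
          mul_le_mul h12 h13 (by positivity) (by positivity)

end Pool.Agent.OG
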