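import Pool.Agent.helper64.OT.SpecM

/-!
# Row ot:MF1 (MP_f6e9a2_nt): splitting the quadruples
-/

set_option autoImplicit false

namespace Pool.Agent.OT

open Finset

/-- fourfold sum as a sum over a product type -/
noncomputable def MF1_G {p : ℕ} [NeZero p] (f : ZMod p → ZMod p → ZMod p → ZMod p → ℝ) : ℝ :=
  ∑ X : ZMod p × ZMod p × ZMod p × ZMod p, f X.1 X.2.1 X.2.2.1 X.2.2.2

theorem MF1_G_eq {p : ℕ} [NeZero p] (f : ZMod p → ZMod p → ZMod p → ZMod p → ℝ) :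
    MF1_G f = ∑ a : ZMod p, ∑ b : ZMod p, ∑ c : ZMod p, ∑ d : ZMod p, f a b c d := by
  unfold MF1_G
  simp only [Fintype.sum_prod_type]

theorem MF1_G_add {p : ℕ} [NeZero p] (f g : ZMod p → ZMod p → ZMod p → ZMod p → ℝ) :
    MF1_G (fun a b c d => f a b c d + g a b c d) = MF1_G f + MF1_G g := by
  unfold MF1_G; rw [Finset.sum_add_distrib]

theorem MF1_G_mul {p : ℕ} [NeZero p] (k : ℝ) (f : ZMod p → ZMod p → ZMod p → ZMod p → ℝ) :
    MF1_G (fun a b c d => k * f a b c d) = k * MF1_G f := by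
  unfold MF1_G; rw [Finset.mul_sum]

theorem MF1_G_sum {p : ℕ} [NeZero p] (s : Finset (ZMod p)) (h : ZMod p → ℝ)
    (f : ZMod p → ZMod p → ZMod p → ZMod p → ZMod p → ℝ) :
    MF1_G (fun a b c d => ∑ l ∈ s, h l * f l a b c d) = ∑ l ∈ s, h l * MF1_G (f l) := by
  unfold MF1_G
  rw [Finset.sum_comm]
  refine Finset.sum_congr rfl fun l _ => ?_
  rw [Finset.mul_sum]

theorem MF1_G_mono {p : ℕ} [NeZero p] (f g : ZMod p → ZMod p → ZMod p → ZMod p → ℝ)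
    (h : ∀ a b c d, f a b c d ≤ g a b c d) : MF1_G f ≤ MF1_G g :=
  Finset.sum_le_sum fun _ _ => h _ _ _ _

theorem MF1_swap {p : ℕ} [NeZero p] (f : ZMod p → ZMod p → ZMod p → ZMod p → ℝ) :
    MF1_G f = MF1_G (fun a b c d => f a c b d) := by
  rw [MF1_G_eq, MF1_G_eq]
  exact Finset.sum_congr rfl fun a _ => Finset.sum_comm

theorem MF1_rot {p : ℕ} [NeZero p] (f : ZMod p → ZMod p → ZMod p → ZMod p → ℝ) :
    MF1_G f = MF1_G (fun a b c d => f a c d b) := by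
  rw [MF1_G_eq, MF1_G_eq]
  refine Finset.sum_congr rfl fun a _ => ?_
  calc ∑ b : ZMod p, ∑ c : ZMod p, ∑ d : ZMod p, f a b c d
      = ∑ b : ZMod p, ∑ d : ZMod p, ∑ c : ZMod p, f a b c d :=
        Finset.sum_congr rfl fun b _ => Finset.sum_comm
    _ = ∑ d : ZMod p, ∑ b : ZMod p, ∑ c : ZMod p, f a b c d := Finset.sum_comm

/-- product of two double sums -/
theorem MF1_prod {p : ℕ} [NeZero p] (u v : ZMod p → ZMod p → ℝ) :
    MF1_G (fun a b c d => u a b * v c d) = (∑ a : ZMod p, ∑ b : ZMod p, u a b) * ∑ c : ZMod p, ∑ d : ZMod p, v c d := by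
  rw [MF1_G_eq, Finset.sum_mul]
  refine Finset.sum_congr rfl fun a _ => ?_
  rw [Finset.sum_mul]
  refine Finset.sum_congr rfl fun b _ => ?_
  rw [Finset.mul_sum]
  refine Finset.sum_congr rfl fun c _ => ?_
  rw [Finset.mul_sum]

/-- the indicator of equality -/
noncomputable def MF1_e {p : ℕ} (a b : ZMod p) : ℝ := if a = b then 1 else 0

theorem MF1_e_nonneg {p : ℕ} (a b : ZMod p) : 0 ≤ MF1_e a b := by
  unfold MF1_e; split_ifs <;> norm_num

theorem MF1_full {p : ℕ} [NeZero p] (g : ZMod p → ℝ) (N : ℝ) (h : ∑ x : ZMod p, g x = N) :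
    ∑ a : ZMod p, ∑ b : ZMod p, g a * g b = N ^ 2 := by
  rw [← Finset.sum_mul_sum, h]; ring

theorem MF1_diag {p : ℕ} [NeZero p] (g : ZMod p → ℝ) (N : ℝ) (h0 : ∀ x, 0 ≤ g x) (h1 : ∀ x, g x ≤ 1)
    (h : ∑ x : ZMod p, g x = N) :
    ∑ a : ZMod p, ∑ b : ZMod p, MF1_e a b * (g a * g b) ≤ N := by
  rw [← h]
  refine Finset.sum_le_sum fun a _ => ?_
  have : ∑ b : ZMod p, MF1_e a b * (g a * g b) = g a * g a := by
    unfold MF1_e
    simp
  rw [this]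
  nlinarith [h0 a, h1 a]

theorem MF1_diag0 {p : ℕ} [NeZero p] (g : ZMod p → ℝ) (h0 : ∀ x, 0 ≤ g x) :
    0 ≤ ∑ a : ZMod p, ∑ b : ZMod p, MF1_e a b * (g a * g b) :=
  Finset.sum_nonneg fun a _ => Finset.sum_nonneg fun b _ =>
    mul_nonneg (MF1_e_nonneg a b) (mul_nonneg (h0 a) (h0 b))

/-- one coincidence -/
theorem MF1_one {p : ℕ} [NeZero p] (g : ZMod p → ℝ) (N : ℝ) (hN : 0 ≤ N) (h0 : ∀ x, 0 ≤ g x) (h1 : ∀ x, g x ≤ 1)
    (h : ∑ x : ZMod p, g x = N) :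
    MF1_G (fun a b c d => MF1_e a b * (g a * g b * g c * g d)) ≤ N ^ 3 ∧
    MF1_G (fun a b c d => MF1_e c d * (g a * g b * g c * g d)) ≤ N ^ 3 := by
  have hd := MF1_diag g N h0 h1 h
  have hf := MF1_full g N h
  have hN2 : 0 ≤ N ^ 2 := by positivity
  constructor
  · have e : (fun a b c d : ZMod p => MF1_e a b * (g a * g b * g c * g d)) =
        fun a b c d => (fun a b => MF1_e a b * (g a * g b)) a b * (fun c d => g c * g d) c d := by
      funext a b c d; ring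
    rw [e, MF1_prod, hf]
    nlinarith [mul_le_mul_of_nonneg_right hd hN2]
  · have e : (fun a b c d : ZMod p => MF1_e c d * (g a * g b * g c * g d)) =
        fun a b c d => (fun a b => g a * g b) a b * (fun c d => MF1_e c d * (g c * g d)) c d := by
      funext a b c d; ring
    rw [e, MF1_prod, hf]
    nlinarith [mul_le_mul_of_nonneg_left hd hN2]

/-- two coincidences -/
theorem MF1_two {p : ℕ} [NeZero p] (g : ZMod p → ℝ) (N : ℝ) (hN : 0 ≤ N) (h0 : ∀ x, 0 ≤ g x) (h1 : ∀ x, g x ≤ 1)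
    (h : ∑ x : ZMod p, g x = N) :
    MF1_G (fun a b c d => MF1_e a b * MF1_e c d * (g a * g b * g c * g d)) ≤ N ^ 2 := by
  have hd := MF1_diag g N h0 h1 h
  have hd0 := MF1_diag0 g h0
  have e : (fun a b c d : ZMod p => MF1_e a b * MF1_e c d * (g a * g b * g c * g d)) =
      fun a b c d => (fun a b => MF1_e a b * (g a * g b)) a b * (fun c d => MF1_e c d * (g c * g d)) c d := by
    funext a b c d; ring
  rw [e, MF1_prod]
  calc _ ≤ N * N := mul_le_mul hd hd hd0 hN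
    _ = N ^ 2 := by ring

theorem MF1_ch_le {p : ℕ} [Fact p.Prime] (χ : MulChar (ZMod p) ℂ) (c : Option (ZMod p)) (x : ZMod p) :
    ‖ch χ c x‖ ≤ 1 := by
  cases c with
  | none => simp [ch]
  | some c => exact DirichletCharacter.norm_le_one (n := p) χ (x + c)

theorem MF1_CS_le {p : ℕ} [Fact p.Prime] (χ : MulChar (ZMod p) ℂ) (x₁ x₂ x₃ x₄ : ZMod p) :
    ‖CS χ x₁ x₂ x₃ x₄‖ ^ 2 ≤ ((p : ℝ) + 1) ^ 2 := by
  have h : ‖CS χ x₁ x₂ x₃ x₄‖ ≤ (p : ℝ) + 1 := by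
    unfold CS
    calc _ ≤ ∑ c : Option (ZMod p), ‖(ch χ c x₁ * ch χ c x₃) * (starRingEnd ℂ) (ch χ c x₂ * ch χ c x₄)‖ :=
          norm_sum_le _ _
      _ ≤ ∑ _c : Option (ZMod p), (1 : ℝ) := by
          refine Finset.sum_le_sum fun c _ => ?_
          rw [norm_mul, RCLike.norm_conj, norm_mul, norm_mul]
          have h1 := MF1_ch_le χ c x₁
          have h2 := MF1_ch_le χ c x₂
          have h3 := MF1_ch_le χ c x₃
          have h4 := MF1_ch_le χ c x₄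
          calc _ ≤ (1 * 1 : ℝ) * (1 * 1) := by gcongr
            _ = 1 := by norm_num
      _ = (p : ℝ) + 1 := by
          simp [Fintype.card_option, ZMod.card]
  have h0 := norm_nonneg (CS χ x₁ x₂ x₃ x₄)
  gcongr

theorem MF1_point (hCRR : CRR_stmt) (hCSB : CSB_stmt) (p : ℕ) [Fact p.Prime] (χ : MulChar (ZMod p) ℂ)
    (hχ : χ ≠ 1) (x₁ x₂ x₃ x₄ : ZMod p) (w : ℝ) (hw : 0 ≤ w) :
    w * ‖CS χ x₁ x₂ x₃ x₄‖ ^ 2 ≤
      ∑ lam ∈ univ.filter (fun lam : ZMod p => lam ≠ 0 ∧ lam ≠ 1),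
        HH χ lam * (if qq lam x₁ x₂ x₃ x₄ = 0 then w else 0) +
      ((p : ℝ) + 1) ^ 2 * (MF1_e x₁ x₂ * MF1_e x₃ x₄ * w + MF1_e x₁ x₄ * MF1_e x₂ x₃ * w +
        MF1_e x₁ x₃ * MF1_e x₂ x₄ * w) +
      9 * p * (MF1_e x₁ x₂ * w + MF1_e x₁ x₃ * w + MF1_e x₁ x₄ * w + MF1_e x₂ x₃ * w +
        MF1_e x₂ x₄ * w + MF1_e x₃ x₄ * w) := by
  have hHH : ∀ lam, 0 ≤ HH χ lam := fun lam => by unfold HH; positivity
  have hsum0 : ∀ lam ∈ univ.filter (fun lam : ZMod p => lam ≠ 0 ∧ lam ≠ 1),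
      0 ≤ HH χ lam * (if qq lam x₁ x₂ x₃ x₄ = 0 then w else 0) := by
    intro lam _
    refine mul_nonneg (hHH lam) ?_
    split_ifs <;> simp [hw]
  have hS0 := Finset.sum_nonneg hsum0
  have hp : (0 : ℝ) ≤ p := Nat.cast_nonneg p
  have e12 := mul_nonneg (MF1_e_nonneg x₁ x₂) hw
  have e13 := mul_nonneg (MF1_e_nonneg x₁ x₃) hw
  have e14 := mul_nonneg (MF1_e_nonneg x₁ x₄) hw
  have e23 := mul_nonneg (MF1_e_nonneg x₂ x₃) hw
  have e24 := mul_nonneg (MF1_e_nonneg x₂ x₄) hw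
  have e34 := mul_nonneg (MF1_e_nonneg x₃ x₄) hw
  have f1 := mul_nonneg (mul_nonneg (MF1_e_nonneg x₁ x₂) (MF1_e_nonneg x₃ x₄)) hw
  have f2 := mul_nonneg (mul_nonneg (MF1_e_nonneg x₁ x₄) (MF1_e_nonneg x₂ x₃)) hw
  have f3 := mul_nonneg (mul_nonneg (MF1_e_nonneg x₁ x₃) (MF1_e_nonneg x₂ x₄)) hw
  set A := MF1_e x₁ x₂ * MF1_e x₃ x₄ * w with hA
  set B := MF1_e x₁ x₄ * MF1_e x₂ x₃ * w with hB
  set C := MF1_e x₁ x₃ * MF1_e x₂ x₄ * w with hC
  set S := ∑ lam ∈ univ.filter (fun lam : ZMod p => lam ≠ 0 ∧ lam ≠ 1),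
        HH χ lam * (if qq lam x₁ x₂ x₃ x₄ = 0 then w else 0) with hS
  have hp1 : (0 : ℝ) ≤ ((p : ℝ) + 1) ^ 2 := by positivity
  have hABC : 0 ≤ ((p : ℝ) + 1) ^ 2 * (A + B + C) := mul_nonneg hp1 (by linarith)
  by_cases hP : (x₁ = x₂ ∧ x₃ = x₄) ∨ (x₁ = x₄ ∧ x₂ = x₃) ∨ (x₁ = x₃ ∧ x₂ = x₄)
  · have h1 : w ≤ A + B + C := by
      rcases hP with ⟨h, h'⟩ | ⟨h, h'⟩ | ⟨h, h'⟩
      · have : A = w := by rw [hA]; simp [MF1_e, h, h']
        linarith
      · have : B = w := by rw [hB]; simp [MF1_e, h, h']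
        linarith
      · have : C = w := by rw [hC]; simp [MF1_e, h, h']
        linarith
    have h2 := MF1_CS_le χ x₁ x₂ x₃ x₄
    have h3 : w * ‖CS χ x₁ x₂ x₃ x₄‖ ^ 2 ≤ ((p : ℝ) + 1) ^ 2 * (A + B + C) := by
      calc w * ‖CS χ x₁ x₂ x₃ x₄‖ ^ 2 ≤ w * ((p : ℝ) + 1) ^ 2 := mul_le_mul_of_nonneg_left h2 hw
        _ = ((p : ℝ) + 1) ^ 2 * w := by ring
        _ ≤ _ := mul_le_mul_of_nonneg_left h1 hp1
    have h4 : 0 ≤ 9 * (p : ℝ) * (MF1_e x₁ x₂ * w + MF1_e x₁ x₃ * w + MF1_e x₁ x₄ * w + MF1_e x₂ x₃ * w +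
        MF1_e x₂ x₄ * w + MF1_e x₃ x₄ * w) := mul_nonneg (by positivity) (by linarith)
    linarith
  · by_cases hE : x₁ = x₂ ∨ x₁ = x₃ ∨ x₁ = x₄ ∨ x₂ = x₃ ∨ x₂ = x₄ ∨ x₃ = x₄
    · have h1 : w ≤ MF1_e x₁ x₂ * w + MF1_e x₁ x₃ * w + MF1_e x₁ x₄ * w + MF1_e x₂ x₃ * w +
          MF1_e x₂ x₄ * w + MF1_e x₃ x₄ * w := by
        have key : ∀ a b : ZMod p, a = b → MF1_e a b * w = w := by
          intro a b hab; simp [MF1_e, hab]
        rcases hE with h | h | h | h | h | h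
        all_goals (have := key _ _ h; linarith)
      have h2 := hCSB p χ x₁ x₂ x₃ x₄ hχ hE (fun h => hP (Or.inl h)) (fun h => hP (Or.inr (Or.inl h)))
        (fun h => hP (Or.inr (Or.inr h)))
      have h3 : w * ‖CS χ x₁ x₂ x₃ x₄‖ ^ 2 ≤ 9 * p * (MF1_e x₁ x₂ * w + MF1_e x₁ x₃ * w + MF1_e x₁ x₄ * w +
          MF1_e x₂ x₃ * w + MF1_e x₂ x₄ * w + MF1_e x₃ x₄ * w) := by
        calc w * ‖CS χ x₁ x₂ x₃ x₄‖ ^ 2 ≤ w * (9 * p) := mul_le_mul_of_nonneg_left h2 hw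
          _ = 9 * p * w := by ring
          _ ≤ _ := mul_le_mul_of_nonneg_left h1 (by positivity)
      linarith
    · push Not at hE
      obtain ⟨h12, h13, h14, h23, h24, h34⟩ := hE
      have hcr := hCRR p χ x₁ x₂ x₃ x₄ h12 h13 h14 h23 h24 h34
      set lam := (x₁ - x₃) * (x₂ - x₄) / ((x₁ - x₄) * (x₂ - x₃)) with hlam
      have hden : (x₁ - x₄) * (x₂ - x₃) ≠ 0 := mul_ne_zero (sub_ne_zero.2 h14) (sub_ne_zero.2 h23)
      have hl0 : lam ≠ 0 := div_ne_zero (mul_ne_zero (sub_ne_zero.2 h13) (sub_ne_zero.2 h24)) hden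
      have hl1 : lam ≠ 1 := by
        intro h
        rw [hlam, div_eq_one_iff_eq hden] at h
        have h5 : (x₁ - x₂) * (x₃ - x₄) = 0 := by linear_combination h
        exact mul_ne_zero (sub_ne_zero.2 h12) (sub_ne_zero.2 h34) h5
      have hq : qq lam x₁ x₂ x₃ x₄ = 0 := by
        unfold qq
        rw [hlam, div_mul_cancel₀ _ hden]; ring
      have hle : HH χ lam * (if qq lam x₁ x₂ x₃ x₄ = 0 then w else 0) ≤ S :=
        Finset.single_le_sum (f := fun lam => HH χ lam * (if qq lam x₁ x₂ x₃ x₄ = 0 then w else 0))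
          hsum0 (by simp [hl0, hl1])
      rw [if_pos hq] at hle
      rw [hcr]
      have h4 : 0 ≤ 9 * (p : ℝ) * (MF1_e x₁ x₂ * w + MF1_e x₁ x₃ * w + MF1_e x₁ x₄ * w + MF1_e x₂ x₃ * w +
        MF1_e x₂ x₄ * w + MF1_e x₃ x₄ * w) := mul_nonneg (by positivity) (by linarith)
      linarith

theorem MF1 (hPSI : PSI_stmt) (hCRR : CRR_stmt) (hCSB : CSB_stmt) : MF1_stmt := by
  intro p _ χ T hχ hT hTp
  obtain ⟨hpsi, hsum⟩ := hPSI p T hT hTp
  have h0 : ∀ x : ZMod p, 0 ≤ psi T x := fun x => (hpsi x).1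
  have h1 : ∀ x : ZMod p, psi T x ≤ 1 := fun x => (hpsi x).2
  set N : ℝ := (p : ℝ) / T with hN
  have hN0 : 0 ≤ N := by rw [hN]; positivity
  have hone := MF1_one (p := p) (psi T) N hN0 h0 h1 hsum
  have htwo := MF1_two (p := p) (psi T) N hN0 h0 h1 hsum
  set W : ZMod p → ZMod p → ZMod p → ZMod p → ℝ := fun a b c d => psi T a * psi T b * psi T c * psi T d with hW
  have a12 : MF1_G (fun a b c d : ZMod p => MF1_e a b * W a b c d) ≤ N ^ 3 := hone.1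
  have a34 : MF1_G (fun a b c d : ZMod p => MF1_e c d * W a b c d) ≤ N ^ 3 := hone.2
  have a13 : MF1_G (fun a b c d : ZMod p => MF1_e a c * W a b c d) ≤ N ^ 3 := by
    rw [MF1_swap]
    refine le_trans (le_of_eq ?_) hone.1
    congr 1; funext a b c d; simp only [hW]; ring
  have a24 : MF1_G (fun a b c d : ZMod p => MF1_e b d * W a b c d) ≤ N ^ 3 := by
    rw [MF1_swap]
    refine le_trans (le_of_eq ?_) hone.2
    congr 1; funext a b c d; simp only [hW]; ring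
  have a14 : MF1_G (fun a b c d : ZMod p => MF1_e a d * W a b c d) ≤ N ^ 3 := by
    rw [MF1_rot]
    refine le_trans (le_of_eq ?_) hone.1
    congr 1; funext a b c d; simp only [hW]; ring
  have a23 : MF1_G (fun a b c d : ZMod p => MF1_e b c * W a b c d) ≤ N ^ 3 := by
    rw [MF1_rot]
    refine le_trans (le_of_eq ?_) hone.2
    congr 1; funext a b c d; simp only [hW]; ring
  have b1 : MF1_G (fun a b c d : ZMod p => MF1_e a b * MF1_e c d * W a b c d) ≤ N ^ 2 := htwo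
  have b2 : MF1_G (fun a b c d : ZMod p => MF1_e a d * MF1_e b c * W a b c d) ≤ N ^ 2 := by
    rw [MF1_rot]
    refine le_trans (le_of_eq ?_) htwo
    congr 1; funext a b c d; simp only [hW]; ring
  have b3 : MF1_G (fun a b c d : ZMod p => MF1_e a c * MF1_e b d * W a b c d) ≤ N ^ 2 := by
    rw [MF1_swap]
    refine le_trans (le_of_eq ?_) htwo
    congr 1; funext a b c d; simp only [hW]; ring
  have hpt := MF1_G_mono (p := p) (fun a b c d => W a b c d * ‖CS χ a b c d‖ ^ 2)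
    (fun a b c d => ∑ lam ∈ univ.filter (fun lam : ZMod p => lam ≠ 0 ∧ lam ≠ 1),
        HH χ lam * (fun lam a b c d => if qq lam a b c d = 0 then W a b c d else 0) lam a b c d +
      ((p : ℝ) + 1) ^ 2 * (MF1_e a b * MF1_e c d * W a b c d + MF1_e a d * MF1_e b c * W a b c d +
        MF1_e a c * MF1_e b d * W a b c d) +
      9 * p * (MF1_e a b * W a b c d + MF1_e a c * W a b c d + MF1_e a d * W a b c d + MF1_e b c * W a b c d +
        MF1_e b d * W a b c d + MF1_e c d * W a b c d))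
    (fun a b c d => MF1_point hCRR hCSB p χ hχ a b c d (W a b c d)
      (mul_nonneg (mul_nonneg (mul_nonneg (h0 a) (h0 b)) (h0 c)) (h0 d)))
  rw [MF1_G_add, MF1_G_add, MF1_G_sum, MF1_G_mul, MF1_G_mul, MF1_G_add, MF1_G_add, MF1_G_add, MF1_G_add,
    MF1_G_add, MF1_G_add, MF1_G_add] at hpt
  rw [MF1_G_eq] at hpt
  have hnn : ∀ lam : ZMod p, MF1_G ((fun lam a b c d => if qq lam a b c d = 0 then W a b c d else 0) lam) =
      nn T lam := by
    intro lam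
    rw [MF1_G_eq]
    rfl
  simp only [hnn] at hpt
  have hp1 : (0 : ℝ) ≤ ((p : ℝ) + 1) ^ 2 := by positivity
  have hp9 : (0 : ℝ) ≤ 9 * (p : ℝ) := by positivity
  have c1 := mul_le_mul_of_nonneg_left (add_le_add (add_le_add b1 b2) b3) hp1
  have c2 := mul_le_mul_of_nonneg_left
    (add_le_add (add_le_add (add_le_add (add_le_add (add_le_add a12 a13) a14) a23) a24) a34) hp9
  refine le_trans hpt ?_
  linarith

end Pool.Agent.OT
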