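import Pool.Agent.helper64.OT.SpecW

/-!
# Row ot:WFA (MP_f6e9a2_nt): a polynomial with constant term `1` is a product of factors `1 - α X`
-/

set_option autoImplicit false

namespace Pool.Agent.OT

open Finset Polynomial Pool.Agent.helper82.Weil Pool.Agent.helper82.KL

theorem WFA_ms (s : Multiset ℂ) (h : ∀ z ∈ s, z ≠ 0) :
    (s.map (fun z => X - C z : ℂ → ℂ[X])).prod =
      C ((s.map (fun z => -z)).prod) * (s.map (fun z => 1 - C z⁻¹ * X : ℂ → ℂ[X])).prod := by
  induction s using Multiset.induction_on with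
  | empty => simp
  | cons a s ih =>
    have ha : a ≠ 0 := h a (Multiset.mem_cons_self a s)
    rw [Multiset.map_cons, Multiset.map_cons, Multiset.map_cons, Multiset.prod_cons, Multiset.prod_cons,
      Multiset.prod_cons, ih fun z hz => h z (Multiset.mem_cons_of_mem hz), C_mul]
    have h1 : (X - C a : ℂ[X]) = C (-a) * (1 - C a⁻¹ * X) := by
      rw [mul_sub, ← mul_assoc, ← C_mul, mul_one, neg_mul, mul_inv_cancel₀ ha, C_neg, C_neg, C_1]
      ring
    rw [h1]; ring

theorem WFA_ev (s : Multiset ℂ) : (s.map (fun z => 1 - C z⁻¹ * X : ℂ → ℂ[X])).prod.coeff 0 = 1 := by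
  induction s using Multiset.induction_on with
  | empty => simp
  | cons a s ih => rw [Multiset.map_cons, Multiset.prod_cons, mul_coeff_zero, ih]; simp

theorem WFA : WFA_stmt := by
  intro L hL
  have hL0 : L ≠ 0 := by rintro rfl; simp at hL
  have hroot : ∀ z ∈ L.roots, z ≠ 0 := by
    rintro z hz rfl
    rw [mem_roots hL0, IsRoot.def, ← coeff_zero_eq_eval_zero, hL] at hz
    exact one_ne_zero hz
  have hs := IsAlgClosed.splits L
  have h1 := hs.eq_prod_roots
  rw [WFA_ms _ hroot, ← mul_assoc, ← C_mul] at h1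
  set c := L.leadingCoeff * (L.roots.map (fun z => -z)).prod with hc
  have h2 : c = 1 := by
    have h3 : L.coeff 0 = c := by
      conv_lhs => rw [h1]
      rw [coeff_C_mul, WFA_ev, mul_one]
    rw [← h3, hL]
  rw [h2, C_1, one_mul] at h1
  set l := L.roots.toList with hl
  have hlr : (l : Multiset ℂ) = L.roots := Multiset.coe_toList _
  have hlen : L.natDegree = l.length := by
    rw [hs.natDegree_eq_card_roots, ← hlr, Multiset.coe_card]
  have hmem : ∀ i : Fin l.length, l[(i : ℕ)] ≠ 0 := by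
    intro i
    exact hroot _ (Multiset.mem_toList.1 (List.getElem_mem _))
  refine ⟨fun j => (l[((Fin.cast hlen j : Fin l.length) : ℕ)])⁻¹, fun j => inv_ne_zero (hmem _), ?_⟩
  have h4 : L = ∏ i : Fin l.length, (1 - C (l[(i : ℕ)])⁻¹ * X : ℂ[X]) := by
    rw [Fin.prod_univ_fun_getElem l (fun z => (1 - C z⁻¹ * X : ℂ[X]))]
    conv_lhs => rw [h1]
    rw [← hlr, Multiset.map_coe, Multiset.prod_coe]
  have h5 : ∏ j : Fin L.natDegree, (1 - C (l[((Fin.cast hlen j : Fin l.length) : ℕ)])⁻¹ * X : ℂ[X]) =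
      ∏ i : Fin l.length, (1 - C (l[(i : ℕ)])⁻¹ * X : ℂ[X]) :=
    Fintype.prod_equiv (finCongr hlen) _ _ fun j => rfl
  exact h4.trans h5.symm

end Pool.Agent.OT
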